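import Pool.Agent.Helper30.U.Defs2

/-!
# MP_506470_co : module U-K2
-/

namespace SetHom
namespace Un

variable {V : Type} {G : SimpleGraph V}

/-- module U-K2 (the induction step of the general case). -/
theorem lemK2_step (hW : WG G) {s : ℕ} (hF : FreeIn G (s + 1)) (n : ℕ)
    (ih : ∀ (α : Type) [Finite α] (H : SimpleGraph α) (U T : Set α) (a b : α),
      KC H U T a b s → {z | z ∈ U ∧ z ≠ b ∧ H.Adj a z ∧ ¬ H.Adj b z}.ncard = n →
      ∀ r, InW G r H U)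
    {α : Type} [Finite α] {H : SimpleGraph α} {U T : Set α} {a b : α}
    (h : KC H U T a b s)
    (hc : {z | z ∈ U ∧ z ≠ b ∧ H.Adj a z ∧ ¬ H.Adj b z}.ncard = n + 1) (r : ℕ) :
    InW G r H U := by
  classical
  -- the vertex `z0`
  have hne : {z | z ∈ U ∧ z ≠ b ∧ H.Adj a z ∧ ¬ H.Adj b z}.Nonempty := by
    rw [← Set.ncard_pos (Set.toFinite _), hc]
    omega
  obtain ⟨z0, hz0U, hz0b, haz0, hbz0⟩ := hne
  have hab : a ≠ b := h.ab.ne
  have haz : a ≠ z0 := haz0.ne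
  obtain ⟨M, hM⟩ : ∃ M, M = Nat.card (α ⊕ α) + 1 := ⟨_, rfl⟩
  have hM0 : 0 < M := by omega
  let i0 : Fin M := ⟨0, hM0⟩
  let T1 : Set α := {z | z ∈ T ∧ z ≠ b ∧ z ≠ z0}
  let T2 : Set α := {z | z ∈ T ∧ z ≠ a ∧ z ≠ b}
  let T0 : Set (α ⊕ α) := {u | (∃ z ∈ T1, u = Sum.inl z) ∨ ∃ z ∈ T2, u = Sum.inr z}
  have t0l : ∀ z, (Sum.inl z : α ⊕ α) ∈ T0 ↔ (z ∈ T ∧ z ≠ b ∧ z ≠ z0) := by
    intro z
    constructor
    · rintro (⟨w, hw, e⟩ | ⟨w, hw, e⟩)
      · rw [Sum.inl.inj e]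
        exact hw
      · simp at e
    · exact fun hz => Or.inl ⟨z, hz, rfl⟩
  have t0r : ∀ z, (Sum.inr z : α ⊕ α) ∈ T0 ↔ (z ∈ T ∧ z ≠ a ∧ z ≠ b) := by
    intro z
    constructor
    · rintro (⟨w, hw, e⟩ | ⟨w, hw, e⟩)
      · simp at e
      · rw [Sum.inr.inj e]
        exact hw
    · exact fun hz => Or.inr ⟨z, hz, rfl⟩
  let E : α ⊕ α → (α ⊕ α) × Fin M → Prop := fun u w =>
    (u ∈ T0 ∧ u = w.1) ∨ (u = Sum.inl b ∧ w.1 = Sum.inl a)
  let X : SimpleGraph ((α ⊕ α) ⊕ ((α ⊕ α) × Fin M)) := gad H b z0 a b (fun _ _ => False) E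
  let Γ : Set ((α ⊕ α) ⊕ ((α ⊕ α) × Fin M)) := gU ((α ⊕ α) × Fin M) U b z0 a b
  let S : Set ((α ⊕ α) ⊕ ((α ⊕ α) × Fin M)) := Sum.inl '' T0
  -- the basic description of adjacency
  have x11 : ∀ z z', X.Adj (Sum.inl (Sum.inl z)) (Sum.inl (Sum.inl z')) ↔ H.Adj z z' :=
    fun z z' => gad_11 z z'
  have x22 : ∀ z z', X.Adj (Sum.inl (Sum.inr z)) (Sum.inl (Sum.inr z')) ↔ H.Adj z z' :=
    fun z z' => gad_22 z z'
  have x12 : ∀ z z', z ≠ b → z ≠ z0 → ¬ X.Adj (Sum.inl (Sum.inl z)) (Sum.inl (Sum.inr z')) := by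
    intro z z' h1 h2 h3
    rcases (gad_12 z z').1 h3 with ⟨e, -⟩ | ⟨e, -⟩ | ⟨-, -, e⟩
    · exact h1 e
    · exact h2 e
    · exact e
  have x1p : ∀ u i, X.Adj (Sum.inl u) (Sum.inr i) ↔ E u i := fun u i => gad_1p u i
  have xpp : ∀ i j, ¬ X.Adj (Sum.inr i) (Sum.inr j) := fun i j => gad_pp i j
  have g1 : ∀ z, Sum.inl (Sum.inl z) ∈ Γ ↔ z ∈ U ∧ z ≠ b ∧ z ≠ z0 := fun z => mem_gU_1
  have g2 : ∀ z, Sum.inl (Sum.inr z) ∈ Γ ↔ z ∈ U ∧ z ≠ a ∧ z ≠ b := fun z => mem_gU_2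
  have gp : ∀ i, Sum.inr i ∈ Γ := fun i => mem_gU_p
  have s1 : ∀ z, Sum.inl (Sum.inl z) ∈ S ↔ (z ∈ T ∧ z ≠ b ∧ z ≠ z0) := by
    intro z
    rw [← t0l z]
    exact ⟨fun ⟨u, hu, e⟩ => Sum.inl.inj e ▸ hu, fun hz => ⟨_, hz, rfl⟩⟩
  have s2 : ∀ z, Sum.inl (Sum.inr z) ∈ S ↔ (z ∈ T ∧ z ≠ a ∧ z ≠ b) := by
    intro z
    rw [← t0r z]
    exact ⟨fun ⟨u, hu, e⟩ => Sum.inl.inj e ▸ hu, fun hz => ⟨_, hz, rfl⟩⟩
  have sp : ∀ i, Sum.inr i ∉ S := by
    rintro i ⟨u, -, e⟩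
    simp at e
  have hSΓ : S ⊆ Γ := by
    rintro x hx
    rcases x with ((z | z) | i)
    · exact (g1 z).2 ⟨h.sub ((s1 z).1 hx).1, ((s1 z).1 hx).2⟩
    · exact (g2 z).2 ⟨h.sub ((s2 z).1 hx).1, ((s2 z).1 hx).2⟩
    · exact gp i
  -- no points outside the cover are adjacent
  have hE : ∀ u ∈ Γ, u ∉ S → ∀ i, ¬ X.Adj u (Sum.inr i) := by
    rintro ((z | z) | j) hu huS i hadj
    · rcases (x1p _ i).1 hadj with ⟨e, -⟩ | ⟨e, -⟩
      · exact huS ⟨_, e, rfl⟩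
      · exact ((g1 z).1 hu).2.1 (Sum.inl.inj e)
    · rcases (x1p _ i).1 hadj with ⟨e, -⟩ | ⟨e, -⟩
      · exact huS ⟨_, e, rfl⟩
      · simp at e
    · exact xpp j i hadj
  have hJ : ∀ x ∈ Γ, x ∉ S → ∀ y ∈ Γ, y ∉ S → ¬ X.Adj x y := by
    rintro x hx hxS y hy hyS hxy
    rcases y with ((z' | z') | j)
    · rcases x with ((z | z) | i)
      · have h1 := (g1 z).1 hx
        have h2 := (g1 z').1 hy
        exact h.ind z h1.1 (fun e => hxS ((s1 z).2 ⟨e, h1.2⟩)) z' h2.1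
          (fun e => hyS ((s1 z').2 ⟨e, h2.2⟩)) ((x11 z z').1 hxy)
      · have h2 := (g1 z').1 hy
        exact x12 z' z h2.2.1 h2.2.2 hxy.symm
      · exact hE _ hy hyS i hxy.symm
    · rcases x with ((z | z) | i)
      · have h2 := (g1 z).1 hx
        exact x12 z z' h2.2.1 h2.2.2 hxy
      · have h1 := (g2 z).1 hx
        have h2 := (g2 z').1 hy
        exact h.ind z h1.1 (fun e => hxS ((s2 z).2 ⟨e, h1.2⟩)) z' h2.1
          (fun e => hyS ((s2 z').2 ⟨e, h2.2⟩)) ((x22 z z').1 hxy)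
      · exact hE _ hy hyS i hxy.symm
    · exact hE _ hx hxS j hxy
  -- clique bounds
  have cf1 : ∀ (A : Set α) (k : ℕ), CF H A k →
      CF X ((fun z => Sum.inl (Sum.inl z)) '' A) k := fun A k hA =>
    hA.image _ (fun z _ z' _ e => (x11 z z').1 e)
  have cf2 : ∀ (A : Set α) (k : ℕ), CF H A k →
      CF X ((fun z => Sum.inl (Sum.inr z)) '' A) k := fun A k hA =>
    hA.image _ (fun z _ z' _ e => (x22 z z').1 e)
  have cf12 : ∀ (A B : Set α) (k : ℕ), CF H A k → CF H B k → b ∉ A → z0 ∉ A →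
      CF X (((fun z => Sum.inl (Sum.inl z)) '' A) ∪ ((fun z => Sum.inl (Sum.inr z)) '' B)) k := by
    intro A B k hA hB hbA hzA
    refine (cf1 A k hA).union (cf2 B k hB) ?_
    rintro _ ⟨z, hz, rfl⟩ _ ⟨z', hz', rfl⟩ - hadj
    exact x12 z z' (fun e => hbA (e ▸ hz)) (fun e => hzA (e ▸ hz)) hadj
  have hT2 : CF H T2 s := h.fab.mono (by
    rintro z ⟨h1, h2, h3⟩
    exact ⟨h1, by simp [h2, h3]⟩) le_rfl
  have hT1 : CF H T1 (s + 1) := h.fb.mono (by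
    rintro z ⟨h1, h2, h3⟩
    exact ⟨h1, by simp [h2]⟩) le_rfl
  have hS : CF X S (s + 1) := by
    refine (cf12 T1 T2 (s + 1) hT1 (hT2.mono (fun _ hx => hx) (Nat.le_succ s))
      (fun e => e.2.1 rfl) (fun e => e.2.2 rfl)).mono ?_ le_rfl
    rintro _ ⟨u, (⟨z, hz, rfl⟩ | ⟨z, hz, rfl⟩), rfl⟩
    · exact Or.inl ⟨z, hz, rfl⟩
    · exact Or.inr ⟨z, hz, rfl⟩
  have hSa : CF X (S \ {Sum.inl (Sum.inl a)}) s := by
    refine (cf12 {z | z ∈ T1 ∧ z ≠ a} T2 s (h.fab.mono ?_ le_rfl) hT2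
      (fun e => e.1.2.1 rfl) (fun e => e.1.2.2 rfl)).mono ?_ le_rfl
    · rintro z ⟨⟨h1, h2, h3⟩, h4⟩
      exact ⟨h1, by simp [h2, h4]⟩
    · rintro _ ⟨⟨u, (⟨z, hz, rfl⟩ | ⟨z, hz, rfl⟩), rfl⟩, hne⟩
      · refine Or.inl ⟨z, ⟨hz, ?_⟩, rfl⟩
        rintro rfl
        exact hne rfl
      · exact Or.inr ⟨z, hz, rfl⟩
  -- the base is rigid over the cover
  have hu : Uniq G r X Γ := by
    refine hW Set.univ r (Set.mem_univ r) _ X Γ S hSΓ hJ (hF _ X S hS) ?_ ?_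
    · rintro (u | ⟨w, i⟩) hx
      · refine ⟨Sum.inr (Sum.inl b, i0), gp _, by simp, ?_⟩
        intro hadj
        rcases (x1p u _).1 hadj with ⟨h1, h2⟩ | ⟨h1, h2⟩
        · have h2' : u = Sum.inl b := h2
          rw [h2', t0l] at h1
          exact h1.2.1 rfl
        · exact hab (Sum.inl.inj h2).symm
      · by_cases hw : w = Sum.inl b
        · refine ⟨Sum.inr (Sum.inl a, i0), gp _, ?_, xpp _ _⟩
          intro e
          have := congrArg Prod.fst (Sum.inr.inj e)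
          rw [hw] at this
          exact hab (Sum.inl.inj this)
        · refine ⟨Sum.inr (Sum.inl b, i0), gp _, ?_, xpp _ _⟩
          intro e
          exact hw (congrArg Prod.fst (Sum.inr.inj e)).symm
    · refine autPres_of_deg hJ ?_
      rintro _ ⟨u, hu, rfl⟩
      have h1 : S.ncard ≤ Nat.card (α ⊕ α) := by
        refine (Set.ncard_image_le (Set.toFinite _)).trans ?_
        exact Set.ncard_le_card T0
      have h2 : (Set.range (fun i : Fin M =>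
          (Sum.inr (u, i) : (α ⊕ α) ⊕ ((α ⊕ α) × Fin M)))).ncard = M := by
        rw [← Set.image_univ, Set.ncard_image_of_injective, Set.ncard_univ, Nat.card_eq_fintype_card,
          Fintype.card_fin]
        intro i j e
        exact congrArg Prod.snd (Sum.inr.inj e)
      have h3 : (Set.range (fun i : Fin M =>
          (Sum.inr (u, i) : (α ⊕ α) ⊕ ((α ⊕ α) × Fin M)))).ncard ≤
          {j | j ∈ Γ ∧ j ∉ S ∧ X.Adj (Sum.inl u) j}.ncard := by
        refine Set.ncard_le_ncard ?_ (Set.toFinite _)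
        rintro _ ⟨i, rfl⟩
        exact ⟨gp _, sp _, (x1p u _).2 (Or.inl ⟨hu, rfl⟩)⟩
      omega
  -- the two extensions
  have hxx : InW G r X (insert (Sum.inl (Sum.inl b)) Γ) := by
    have hka : Sum.inl (Sum.inl a) ∈ S := (s1 a).2 ⟨h.ha, hab, haz⟩
    refine ih _ X (insert (Sum.inl (Sum.inl b)) Γ) (insert (Sum.inl (Sum.inl b)) S)
      (Sum.inl (Sum.inl a)) (Sum.inl (Sum.inl b)) ?_ ?_ r
    · refine ⟨?_, ?_, ?_, ?_, ?_, ?_, ?_, ?_⟩
      · exact Set.insert_subset_insert hSΓ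
      · exact Set.mem_insert_of_mem _ hka
      · exact Set.mem_insert _ _
      · exact (x11 a b).2 h.ab
      · intro x hx hxS y hy hyS
        have hx1 : x ≠ Sum.inl (Sum.inl b) := fun e => hxS (e ▸ Set.mem_insert _ _)
        have hy1 : y ≠ Sum.inl (Sum.inl b) := fun e => hyS (e ▸ Set.mem_insert _ _)
        exact hJ x (hx.resolve_left hx1) (fun e => hxS (Set.mem_insert_of_mem _ e)) y
          (hy.resolve_left hy1) (fun e => hyS (Set.mem_insert_of_mem _ e))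
      · refine (hSa.insert (Sum.inl (Sum.inl b))).mono ?_ le_rfl
        rintro x ⟨rfl | hx, hxa⟩
        · exact Set.mem_insert _ _
        · exact Set.mem_insert_of_mem _ ⟨hx, hxa⟩
      · refine hS.mono ?_ le_rfl
        rintro x ⟨hx, hxb⟩
        exact hx.resolve_left hxb
      · refine hSa.mono ?_ le_rfl
        rintro x ⟨hx, hxb⟩
        refine ⟨hx.resolve_left (fun e => hxb (by rw [e]; simp)), fun e => hxb (by rw [e]; simp)⟩
    · have hset : {z | z ∈ insert (Sum.inl (Sum.inl b)) Γ ∧ z ≠ Sum.inl (Sum.inl b) ∧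
          X.Adj (Sum.inl (Sum.inl a)) z ∧ ¬ X.Adj (Sum.inl (Sum.inl b)) z} =
          (fun z => (Sum.inl (Sum.inl z) : (α ⊕ α) ⊕ ((α ⊕ α) × Fin M))) ''
            ({z | z ∈ U ∧ z ≠ b ∧ H.Adj a z ∧ ¬ H.Adj b z} \ {z0}) := by
        ext x
        constructor
        · rintro ⟨hx, hxb, h1, h2⟩
          have hxΓ := hx.resolve_left hxb
          rcases x with ((z | z) | ⟨w, i⟩)
          · have h3 := (g1 z).1 hxΓ
            exact ⟨z, ⟨⟨h3.1, h3.2.1, (x11 a z).1 h1, fun e => h2 ((x11 b z).2 e)⟩, h3.2.2⟩, rfl⟩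
          · exact absurd h1 (x12 a z hab haz)
          · exfalso
            rcases (x1p _ _).1 h1 with ⟨-, h3⟩ | ⟨h3, -⟩
            · exact h2 ((x1p _ _).2 (Or.inr ⟨rfl, h3.symm⟩))
            · exact hab (Sum.inl.inj h3)
        · rintro ⟨z, ⟨⟨h1, h2, h3, h4⟩, h5⟩, rfl⟩
          refine ⟨Set.mem_insert_of_mem _ ((g1 z).2 ⟨h1, h2, h5⟩), ?_, (x11 a z).2 h3,
            fun e => h4 ((x11 b z).1 e)⟩
          intro e
          exact h2 (Sum.inl.inj (Sum.inl.inj e))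
      rw [hset, Set.ncard_image_of_injective _ (fun z z' e => Sum.inl.inj (Sum.inl.inj e)),
        Set.ncard_sdiff_singleton_of_mem (show z0 ∈ {z | z ∈ U ∧ z ≠ b ∧ H.Adj a z ∧ ¬ H.Adj b z} from
          ⟨hz0U, hz0b, haz0, hbz0⟩), hc]
      rfl
  have hyy : InW G r X (insert (Sum.inl (Sum.inl z0)) Γ) := by
    by_cases hz0T : z0 ∈ T
    · have hcf : CF X (insert (Sum.inl (Sum.inl z0)) S) (s + 1) := by
        refine CF.of_nbr (v := Sum.inl (Sum.inl z0)) ?_ ?_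
        · refine hS.mono ?_ le_rfl
          rintro x ⟨hx, hxb⟩
          exact hx.resolve_left hxb
        · have hn : CF H {u | u ∈ T \ {b} ∧ H.Adj z0 u} s :=
            h.fb.nbr (v := z0) ⟨hz0T, hz0b⟩
          refine (cf12 {z | z ∈ T ∧ z ≠ b ∧ H.Adj z0 z} T2 s (hn.mono ?_ le_rfl) hT2
            (fun e => e.2.1 rfl) (fun e => H.irrefl e.2.2)).mono ?_ le_rfl
          · rintro z ⟨h1, h2, h3⟩
            exact ⟨⟨h1, h2⟩, h3⟩
          · rintro x ⟨hx, hadj⟩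
            have hxS : x ∈ S := hx.resolve_left (fun e => X.irrefl (e ▸ hadj))
            rcases x with ((z | z) | i)
            · have := (s1 z).1 hxS
              exact Or.inl ⟨z, ⟨this.1, this.2.1, (x11 z0 z).1 hadj⟩, rfl⟩
            · exact Or.inr ⟨z, (s2 z).1 hxS, rfl⟩
            · exact absurd hxS (sp i)
      refine (hF _ X _ hcf).inW ?_ (Set.mem_univ r)
      intro x hx hxS y hy hyS
      have hx1 : x ≠ Sum.inl (Sum.inl z0) := fun e => hxS (e ▸ Set.mem_insert _ _)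
      have hy1 : y ≠ Sum.inl (Sum.inl z0) := fun e => hyS (e ▸ Set.mem_insert _ _)
      exact hJ x (hx.resolve_left hx1) (fun e => hxS (Set.mem_insert_of_mem _ e)) y
        (hy.resolve_left hy1) (fun e => hyS (Set.mem_insert_of_mem _ e))
    · have hcf : CF X (((fun z => Sum.inl (Sum.inl z)) '' (T \ {b})) ∪
          ((fun z => Sum.inl (Sum.inr z)) '' (U \ {a, b}))) (s + 1) := by
        refine cf12 _ _ _ h.fb ?_ (fun e => e.2 rfl) (fun e => hz0T e.1)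
        refine (h.fab.indep (B := U \ T) ?_).mono ?_ le_rfl
        · rintro x ⟨hx, hxT⟩ y ⟨hy, hyT⟩
          exact h.ind x hx hxT y hy hyT
        · rintro x ⟨hx, hxab⟩
          by_cases hxT : x ∈ T
          · exact Or.inl ⟨hxT, hxab⟩
          · exact Or.inr ⟨hx, hxT⟩
      refine (hF _ X _ hcf).inW ?_ (Set.mem_univ r)
      -- the points outside the cover
      have hout : ∀ x ∈ insert (Sum.inl (Sum.inl z0)) Γ,
          x ∉ ((fun z => Sum.inl (Sum.inl z)) '' (T \ {b})) ∪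
          ((fun z => Sum.inl (Sum.inr z)) '' (U \ {a, b})) →
          (∃ z, x = Sum.inl (Sum.inl z) ∧ z ∈ U ∧ z ∉ T) ∨ ∃ i, x = Sum.inr i := by
        intro x hx hxn
        rcases hx with rfl | hx
        · exact Or.inl ⟨z0, rfl, hz0U, hz0T⟩
        · rcases x with ((z | z) | i)
          · have h1 := (g1 z).1 hx
            refine Or.inl ⟨z, rfl, h1.1, fun e => hxn (Or.inl ⟨z, ⟨e, h1.2.1⟩, rfl⟩)⟩
          · have h1 := (g2 z).1 hx
            exact absurd (Or.inr ⟨z, ⟨h1.1, by simp [h1.2.1, h1.2.2]⟩, rfl⟩) hxn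
          · exact Or.inr ⟨i, rfl⟩
      have hep : ∀ z, z ∉ T → ∀ i, ¬ X.Adj (Sum.inl (Sum.inl z)) (Sum.inr i) := by
        intro z hz i hadj
        rcases (x1p _ i).1 hadj with ⟨e, -⟩ | ⟨e, -⟩
        · exact hz ((t0l z).1 e).1
        · rw [Sum.inl.inj e] at hz
          exact hz h.hb
      intro x hx hxn y hy hyn hadj
      rcases hout x hx hxn with ⟨z, rfl, hz, hzT⟩ | ⟨i, rfl⟩ <;>
        rcases hout y hy hyn with ⟨z', rfl, hz', hzT'⟩ | ⟨j, rfl⟩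
      · exact h.ind z hz hzT z' hz' hzT' ((x11 z z').1 hadj)
      · exact hep z hzT j hadj
      · exact hep z' hzT' i hadj.symm
      · exact xpp i j hadj
  -- the gadget lemma
  refine t1 (p := b) (q := z0) (c := a) (d := b) (C := fun _ _ => False) (E := E)
    (D := (∅ : Set ((α ⊕ α) ⊕ ((α ⊕ α) × Fin M)))) (Ne.symm hz0b) hbz0 h.ab
    (Set.empty_subset _) ?_ ?_ ?_ ?_ hxx hyy
  · intro z hz
    exact absurd hz (Set.notMem_empty z)
  · exact Or.inl (fun z hz => absurd hz (Set.notMem_empty z))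
  · rw [Set.ncard_empty, Nat.add_zero, Set.sdiff_empty]
    exact hu
  · refine ⟨Sum.inr (Sum.inl a, i0), gp _, ?_⟩
    intro hiff
    have h1 : X.Adj (Sum.inl (Sum.inl z0)) (Sum.inr (Sum.inl a, i0)) :=
      hiff.1 ((x1p _ _).2 (Or.inr ⟨rfl, rfl⟩))
    rcases (x1p _ _).1 h1 with ⟨-, e⟩ | ⟨e, -⟩
    · exact haz (Sum.inl.inj e).symm
    · exact hz0b (Sum.inl.inj e)

end Un
end SetHom
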